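import Mathlib
import Pool.Agent.H82.SZ2.Defs
import Pool.Agent.H74.SZ.Kfin

/-!
# MP_103a5c SimpleZeros v2, block I2
-/

open Finset MeasureTheory
open scoped ArithmeticFunction.vonMangoldt ArithmeticFunction.Moebius ArithmeticFunction.zeta

namespace H74SZ

theorem dpol_dser {θ : ℝ} (hθ : θ ≤ 1) {P : ℝ → ℝ} (hP : H82SZ.Adm θ P) {T : ℝ} (hT : 3 ≤ T) (s : ℂ) :
    dser (H82SZ.xk P T) s = H82SZ.dpol T (H82SZ.xk P T) s := by
  refine dser_fin (fun n hn => ?_) s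
  have hTp : 0 < T := by linarith
  have h1 : T < n := Nat.lt_of_floor_lt hn
  have hn1 : 1 ≤ n := by
    have : (0 : ℝ) < n := by linarith
    exact_mod_cast this
  refine xk_zero hP (by linarith) hn1 (le_trans ?_ h1.le)
  calc T ^ θ ≤ T ^ (1 : ℝ) := Real.rpow_le_rpow_of_exponent_le (by linarith) hθ
    _ = T := Real.rpow_one T

theorem SC_xk {θ : ℝ} (hθ : θ ≤ 1) {P : ℝ → ℝ} (hP : H82SZ.Adm θ P) {T : ℝ} (hT : 3 ≤ T) (a : ℝ) :
    SC a (H82SZ.xk P T) := by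
  refine SC_fin (N := H82SZ.NT T) fun n hn => ?_
  have hTp : 0 < T := by linarith
  have h1 : T < n := Nat.lt_of_floor_lt hn
  have hn1 : 1 ≤ n := by
    have : (0 : ℝ) < n := by linarith
    exact_mod_cast this
  refine xk_zero hP (by linarith) hn1 (le_trans ?_ h1.le)
  calc T ^ θ ≤ T ^ (1 : ℝ) := Real.rpow_le_rpow_of_exponent_le (by linarith) hθ
    _ = T := Real.rpow_one T

theorem SS_xk {θ : ℝ} (hθ : θ ≤ 1) {P : ℝ → ℝ} (hP : H82SZ.Adm θ P) {B : ℝ} (hB0 : 0 ≤ B) (hB : ∀ v, |P v| ≤ B)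
    {T : ℝ} (hT : 3 ≤ T) : SS (H82SZ.aT T) (H82SZ.xk P T) ≤ B * (2 * Real.log T) := by
  obtain ⟨hz, hzb⟩ := SS_zeta hT
  have hx := SC_xk hθ hP hT (H82SZ.aT T)
  have h1 : SS (H82SZ.aT T) (H82SZ.xk P T) ≤ B * SS (H82SZ.aT T) (ζ : ArithmeticFunction ℝ) := by
    unfold SS
    rw [← tsum_mul_left]
    refine hx.tsum_le_tsum (fun n => ?_) (hz.mul_left B)
    rcases Nat.eq_zero_or_pos n with h0 | hpos
    · subst h0
      simp
    · have h2 := xk_abs (θ := 0) hB T n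
      have h3 : (ζ : ArithmeticFunction ℝ) n = 1 := by
        rw [ArithmeticFunction.natCoe_apply, ArithmeticFunction.zeta_apply_ne hpos.ne']
        simp
      have h4 : 0 ≤ (n : ℝ) ^ (-H82SZ.aT T) := Real.rpow_nonneg (Nat.cast_nonneg n) _
      rw [h3, abs_one, one_mul]
      exact mul_le_mul_of_nonneg_right h2 h4
  exact h1.trans (mul_le_mul_of_nonneg_left hzb hB0)

theorem MZ_eq {θ : ℝ} (hθ : θ ≤ 1) {P : ℝ → ℝ} (hP : H82SZ.Adm θ P) {T : ℝ} (hT : 8 ≤ T) :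
    H82SZ.MZ P T = ∑ k ∈ Icc 1 (H82SZ.NT T), ((H82SZ.xk P T k / k : ℝ) : ℂ) *
      (∑' n : ℕ, (((ζ : ArithmeticFunction ℝ) * (ζ : ArithmeticFunction ℝ) * H82SZ.xk P T) n : ℂ) *
        KJ 0 T (n / k)) := by
  obtain ⟨ha, ha1, ha2, hL2⟩ := aT_bds hT
  have hT3 : (3 : ℝ) ≤ T := by linarith
  have hT1 : (1 : ℝ) < T := by linarith
  have hz := (SS_zeta hT3).1
  have hx := SC_xk hθ hP hT3 (H82SZ.aT T)
  have hzz := (SC_mul hz hz).1
  have hzzx := (SC_mul hzz hx).1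
  obtain ⟨i3, e3⟩ := exp_A (x := H82SZ.xk P T) hT1 ha1 ha2 hzzx
  rw [← e3]
  unfold H82SZ.MZ vint
  congr 1
  refine integral_congr_ae (Filter.Eventually.of_forall fun t => ?_)
  simp only
  have hs : (H82SZ.aT T + t * Complex.I : ℂ).re = H82SZ.aT T := by simp
  have hs1 : 1 < (H82SZ.aT T + t * Complex.I : ℂ).re := by rw [hs]; exact ha
  unfold H82SZ.ZM
  rw [zeta_one_sub hs1, dser_mul (s := (H82SZ.aT T + t * Complex.I : ℂ)) (by rw [hs]; exact hzz) (by rw [hs]; exact hx),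
    dser_mul (s := (H82SZ.aT T + t * Complex.I : ℂ)) (by rw [hs]; exact hz) (by rw [hs]; exact hz),
    dser_zeta hs1, dpol_dser hθ hP hT3]
  ring

theorem i2 : H82SZ.I2stat := by
  intro ε P hε hε2 hP
  obtain ⟨C0, Ta, hC0, hTa, h0⟩ := dj_approx 0 (by norm_num) hε hP
  obtain ⟨B, hB0, hB⟩ := adm_bdd hP
  obtain ⟨Tl, hTl, hlog⟩ := log_absorb hε
  refine ⟨8 * C0 * B, max Ta Tl, by positivity, fun T hT => ?_⟩
  have hTa' : Ta ≤ T := (le_max_left _ _).trans hT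
  have hTl' : Tl ≤ T := (le_max_right _ _).trans hT
  have hT8 : 8 ≤ T := hTl.trans hTl'
  have hT3 : (3 : ℝ) ≤ T := by linarith
  have hT1 : (1 : ℝ) < T := by linarith
  have hTp : 0 < T := by linarith
  obtain ⟨ha, ha1, ha2, hL2⟩ := aT_bds hT8
  obtain ⟨hl1, hl2⟩ := hlog T hTl'
  have hθ : 1 / 2 - ε ≤ 1 := by linarith
  rw [MZ_eq hθ hP hT8]
  have hz := SS_zeta hT3
  have hx := SC_xk hθ hP hT3 (H82SZ.aT T)
  have hzz := SC_mul hz.1 hz.1
  have hzzx := SC_mul hzz.1 hx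
  set L := Real.log T with hLdef
  have hLp : 0 < L := by linarith
  have hL1 : 1 ≤ L := by linarith
  have b : SS (H82SZ.aT T) ((ζ : ArithmeticFunction ℝ) * (ζ : ArithmeticFunction ℝ) * H82SZ.xk P T) ≤
      8 * B * L ^ 3 := by
    refine hzzx.2.trans ?_
    calc _ ≤ (2 * L * (2 * L)) * (B * (2 * L)) := by
          refine mul_le_mul (hzz.2.trans (mul_le_mul hz.2 hz.2 SS_nonneg (by positivity))) (SS_xk hθ hP hB0 hB hT3)
            SS_nonneg (by positivity)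
      _ = _ := by ring
  have hX : 0 ≤ T ^ (3 / 4 - ε) := (Real.rpow_pos_of_pos hTp _).le
  refine (h0 T hTa' _ hzzx.1).trans ?_
  calc C0 * (T ^ (3 / 4 - ε) * L ^ 2) * SS (H82SZ.aT T)
        ((ζ : ArithmeticFunction ℝ) * (ζ : ArithmeticFunction ℝ) * H82SZ.xk P T)
      ≤ C0 * (T ^ (3 / 4 - ε) * L ^ 2) * (8 * B * L ^ 3) := by gcongr
    _ = 8 * C0 * B * (T ^ (3 / 4 - ε) * L ^ 5) := by ring
    _ ≤ 8 * C0 * B * (T ^ (3 / 4 - ε) * L ^ 8) := by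
        have : L ^ 5 ≤ L ^ 8 := pow_le_pow_right₀ hL1 (by norm_num)
        gcongr
    _ ≤ 8 * C0 * B * T ^ (1 - ε / 2) := by gcongr

end H74SZ
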