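import Mathlib
import Pool.Agent.H82.SZ2.Defs
import Pool.Agent.H4.Arch

/-!
# MP_103a5c SimpleZeros v2, block JE1: the ratio of `ζ` on the lines `Re s = 1/2 ± 1/log T`
-/

open Complex

namespace H74SZ

theorem Gr_diff {s : ℂ} (hs : 0 < s.re) : DifferentiableAt ℂ Gammaℝ s := by
  have hG0 : Gammaℝ s ≠ 0 := Complex.Gammaℝ_ne_zero_of_re_pos hs
  have h1 := (Complex.differentiable_Gammaℝ_inv s).inv (inv_ne_zero hG0)
  have h2 : (fun s => ((Gammaℝ s)⁻¹))⁻¹ = Gammaℝ := by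
    funext z; simp
  rw [h2] at h1
  exact h1

theorem half_re (s : ℂ) : (s / 2).re = s.re / 2 := by
  rw [show s / 2 = s / ((2 : ℝ) : ℂ) by norm_num, Complex.div_ofReal_re]

theorem half_im (s : ℂ) : (s / 2).im = s.im / 2 := by
  rw [show s / 2 = s / ((2 : ℝ) : ℂ) by norm_num, Complex.div_ofReal_im]

theorem ld_re_le {s : ℂ} (h0 : 1 / 4 ≤ s.re) (h1 : s.re ≤ 3 / 4) :
    (logDeriv Gammaℝ s).re ≤ (Real.log (1 + |s.im|) + 80) / 2 := by
  have hs : 0 < s.re := by linarith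
  have hs2 : 0 < (s / 2).re := by rw [half_re]; linarith
  have a1 : 1 / 8 ≤ ‖s / 2‖ := by
    have := (le_abs_self _).trans (Complex.abs_re_le_norm (s / 2))
    rw [half_re] at this
    linarith
  have a2 : ‖s / 2‖ ≤ 1 + |s.im| := by
    have h2 := Complex.norm_le_abs_re_add_abs_im (s / 2)
    rw [half_re, half_im, abs_of_pos (by linarith : 0 < s.re / 2), abs_div, abs_two] at h2
    have := abs_nonneg s.im
    linarith
  have hp : 0 < ‖s / 2‖ := by linarith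
  have hd := Pool.Agent.H4.norm_digamma_sub_log_le hs2
  have e1 : 1 / ‖s / 2‖ ^ 2 ≤ 64 := by
    rw [div_le_iff₀ (by positivity)]
    nlinarith
  have e2 : 2 / ‖s / 2‖ ≤ 16 := by
    rw [div_le_iff₀ hp]
    linarith
  have a3 := (le_abs_self _).trans ((Complex.abs_re_le_norm _).trans hd)
  rw [Complex.sub_re, Complex.log_re] at a3
  have a4 : Real.log ‖s / 2‖ ≤ Real.log (1 + |s.im|) := Real.log_le_log hp a2
  have hpi1 : 0 ≤ Real.log Real.pi := Real.log_nonneg (by linarith [Real.pi_gt_three])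
  rw [Pool.Agent.H4.logDeriv_Gammaℝ hs]
  have e3 : (-(Real.log Real.pi : ℂ) / 2 + digamma (s / 2) / 2) =
      ((-(Real.log Real.pi) / 2 : ℝ) : ℂ) + ((1 / 2 : ℝ) : ℂ) * digamma (s / 2) := by
    push_cast
    ring
  rw [e3, Complex.add_re, Complex.ofReal_re, Complex.re_ofReal_mul]
  linarith

theorem Gr_ratio {d : ℝ} (hd : 0 ≤ d) (hd1 : d ≤ 1 / 4) (t : ℝ) :
    ‖Gammaℝ (((1 / 2 + d : ℝ) : ℂ) + t * I)‖ ≤
      Real.exp (d * (Real.log (1 + |t|) + 80)) * ‖Gammaℝ (((1 / 2 - d : ℝ) : ℂ) + t * I)‖ := by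
  obtain ⟨M, hM⟩ : ∃ M : ℝ, M = Real.log (1 + |t|) + 80 := ⟨_, rfl⟩
  have hre : ∀ x : ℝ, ((x : ℂ) + t * I).re = x := fun x => by simp
  have him : ∀ x : ℝ, ((x : ℂ) + t * I).im = t := fun x => by simp
  have hg : ∀ x : ℝ, 0 < x → HasDerivAt (fun x : ℝ => Gammaℝ ((x : ℂ) + t * I)) (deriv Gammaℝ ((x : ℂ) + t * I)) x := by
    intro x hx
    have h1 : HasDerivAt Gammaℝ (deriv Gammaℝ ((x : ℂ) + t * I)) ((x : ℂ) + t * I) :=
      (Gr_diff (by rw [hre]; exact hx)).hasDerivAt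
    have h2 : HasDerivAt (fun x : ℂ => x + t * I) 1 (x : ℂ) := (hasDerivAt_id _).add_const _
    have h3 : HasDerivAt (fun z : ℂ => Gammaℝ (z + t * I)) (deriv Gammaℝ ((x : ℂ) + t * I) * 1) (x : ℂ) :=
      HasDerivAt.comp (h₂ := Gammaℝ) (h := fun x : ℂ => x + t * I) (x : ℂ) h1 h2
    rw [mul_one] at h3
    exact h3.comp_ofReal
  have hN : ∀ x : ℝ, 0 < x → HasDerivAt (fun x : ℝ => ‖Gammaℝ ((x : ℂ) + t * I)‖ ^ 2 * Real.exp (-(M * x)))
      ((2 * ‖Gammaℝ ((x : ℂ) + t * I)‖ ^ 2 * (logDeriv Gammaℝ ((x : ℂ) + t * I)).re) * Real.exp (-(M * x)) +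
        ‖Gammaℝ ((x : ℂ) + t * I)‖ ^ 2 * (Real.exp (-(M * x)) * (-(M * 1)))) x := by
    intro x hx
    have h1 := (hg x hx).norm_sq
    have h2 : HasDerivAt (fun x : ℝ => Real.exp (-(M * x))) (Real.exp (-(M * x)) * (-(M * 1))) x :=
      (((hasDerivAt_id x).const_mul M).neg).exp
    have hG0 : Gammaℝ ((x : ℂ) + t * I) ≠ 0 := Complex.Gammaℝ_ne_zero_of_re_pos (by rw [hre]; exact hx)
    have h3 : 2 * inner ℝ (Gammaℝ ((x : ℂ) + t * I)) (deriv Gammaℝ ((x : ℂ) + t * I)) =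
        2 * ‖Gammaℝ ((x : ℂ) + t * I)‖ ^ 2 * (logDeriv Gammaℝ ((x : ℂ) + t * I)).re := by
      rw [Complex.inner]
      have h4 : deriv Gammaℝ ((x : ℂ) + t * I) * (starRingEnd ℂ) (Gammaℝ ((x : ℂ) + t * I)) =
          ((‖Gammaℝ ((x : ℂ) + t * I)‖ ^ 2 : ℝ) : ℂ) * logDeriv Gammaℝ ((x : ℂ) + t * I) := by
        rw [logDeriv_apply, ← Complex.normSq_eq_norm_sq, ← Complex.mul_conj]
        field_simp
      first
        | rw [h4, Complex.re_ofReal_mul]; ring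
        | rw [mul_comm ((starRingEnd ℂ) _), h4, Complex.re_ofReal_mul]; ring
    rw [h3] at h1
    exact h1.mul h2
  have hanti : AntitoneOn (fun x : ℝ => ‖Gammaℝ ((x : ℂ) + t * I)‖ ^ 2 * Real.exp (-(M * x)))
      (Set.Icc (1 / 4) (3 / 4)) := by
    refine antitoneOn_of_deriv_nonpos (convex_Icc _ _) ?_ ?_ ?_
    · intro x hx
      exact (hN x (by linarith [hx.1])).continuousAt.continuousWithinAt
    · intro x hx
      rw [interior_Icc] at hx
      exact (hN x (by linarith [hx.1])).differentiableAt.differentiableWithinAt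
    · intro x hx
      rw [interior_Icc] at hx
      rw [(hN x (by linarith [hx.1])).deriv]
      have h1 := ld_re_le (s := (x : ℂ) + t * I) (by rw [hre]; exact hx.1.le) (by rw [hre]; exact hx.2.le)
      rw [him, ← hM] at h1
      have h2 : 0 ≤ ‖Gammaℝ ((x : ℂ) + t * I)‖ ^ 2 * Real.exp (-(M * x)) := by positivity
      have h3 : (2 * ‖Gammaℝ ((x : ℂ) + t * I)‖ ^ 2 * (logDeriv Gammaℝ ((x : ℂ) + t * I)).re) * Real.exp (-(M * x)) +
        ‖Gammaℝ ((x : ℂ) + t * I)‖ ^ 2 * (Real.exp (-(M * x)) * (-(M * 1))) =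
        (‖Gammaℝ ((x : ℂ) + t * I)‖ ^ 2 * Real.exp (-(M * x))) * (2 * (logDeriv Gammaℝ ((x : ℂ) + t * I)).re - M) := by
        ring
      rw [h3]
      exact mul_nonpos_of_nonneg_of_nonpos h2 (by linarith)
  have hkey := hanti (a := 1 / 2 - d) (b := 1 / 2 + d) ⟨by linarith, by linarith⟩ ⟨by linarith, by linarith⟩ (by linarith)
  simp only at hkey
  set A := ‖Gammaℝ (((1 / 2 + d : ℝ) : ℂ) + t * I)‖ with hA
  set B := ‖Gammaℝ (((1 / 2 - d : ℝ) : ℂ) + t * I)‖ with hB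
  have hA0 : 0 ≤ A := norm_nonneg _
  have hB0 : 0 ≤ B := norm_nonneg _
  have h1 : A ^ 2 ≤ (Real.exp (d * M) * B) ^ 2 := by
    have h2 : A ^ 2 * Real.exp (-(M * (1 / 2 + d))) * Real.exp (M * (1 / 2 + d)) ≤
        B ^ 2 * Real.exp (-(M * (1 / 2 - d))) * Real.exp (M * (1 / 2 + d)) :=
      mul_le_mul_of_nonneg_right hkey (Real.exp_pos _).le
    rw [mul_assoc, mul_assoc, ← Real.exp_add, ← Real.exp_add] at h2
    have e1 : -(M * (1 / 2 + d)) + M * (1 / 2 + d) = 0 := by ring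
    have e2 : -(M * (1 / 2 - d)) + M * (1 / 2 + d) = d * M + d * M := by ring
    rw [e1, e2, Real.exp_zero, Real.exp_add] at h2
    nlinarith
  rw [← hM]
  exact (sq_le_sq₀ hA0 (by positivity)).1 h1

theorem Gr_conj (s : ℂ) : ‖Gammaℝ ((starRingEnd ℂ) s)‖ = ‖Gammaℝ s‖ := by
  rw [Gammaℝ_def, Gammaℝ_def]
  have h2 : (starRingEnd ℂ) (2 : ℂ) = 2 := Complex.conj_ofNat 2
  have e1 : -(starRingEnd ℂ) s / 2 = (starRingEnd ℂ) (-s / 2) := by
    rw [map_div₀, map_neg, h2]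
  have e2 : (starRingEnd ℂ) s / 2 = (starRingEnd ℂ) (s / 2) := by
    rw [map_div₀, h2]
  rw [e1, e2, Complex.Gamma_conj, norm_mul, norm_mul, Complex.norm_conj]
  congr 1
  rw [Complex.norm_cpow_eq_rpow_re_of_pos Real.pi_pos, Complex.norm_cpow_eq_rpow_re_of_pos Real.pi_pos,
    Complex.conj_re]

theorem je1 : H82SZ.JE1stat := by
  refine ⟨Real.exp 24, Real.exp 4, (Real.exp_pos _).le, fun T hT t ht => ?_⟩
  have hTp : 0 < T := (Real.exp_pos 4).trans_le hT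
  have hL4 : 4 ≤ Real.log T := (Real.le_log_iff_exp_le hTp).2 hT
  set L := Real.log T with hL
  have hLp : 0 < L := by linarith
  obtain ⟨d, hd⟩ : ∃ d : ℝ, d = 1 / L := ⟨_, rfl⟩
  have hd0 : 0 < d := by rw [hd]; positivity
  have hd4 : d ≤ 1 / 4 := by
    rw [hd]
    exact one_div_le_one_div_of_le (by norm_num) hL4
  rw [← hd]
  -- the points
  have e1 : (1 / 2 + Pool.Agent.H53.SZC.ln d t : ℂ) = ((1 / 2 + d : ℝ) : ℂ) + t * I := by
    unfold Pool.Agent.H53.SZC.ln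
    push_cast
    ring
  have e2 : (1 / 2 + Pool.Agent.H53.SZC.ln (-d) t : ℂ) = ((1 / 2 - d : ℝ) : ℂ) + t * I := by
    unfold Pool.Agent.H53.SZC.ln
    push_cast
    ring
  rw [e1, e2]
  obtain ⟨s, hs⟩ : ∃ s : ℂ, s = ((1 / 2 + d : ℝ) : ℂ) + t * I := ⟨_, rfl⟩
  have hsre : s.re = 1 / 2 + d := by rw [hs]; simp
  have e3 : ((1 / 2 - d : ℝ) : ℂ) + t * I = (starRingEnd ℂ) (1 - s) := by
    rw [hs]
    apply Complex.ext
    · simp
      ring
    · simp
  have hs0 : s ≠ 0 := by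
    intro h
    rw [h] at hsre
    simp at hsre
    linarith
  have hs1 : 1 - s ≠ 0 := by
    intro h
    have h2 : (1 - s).re = 0 := by rw [h]; simp
    rw [Complex.sub_re, hsre, Complex.one_re] at h2
    linarith
  have hG1 : Gammaℝ (1 - s) ≠ 0 := Complex.Gammaℝ_ne_zero_of_re_pos (by rw [Complex.sub_re, hsre, Complex.one_re]; linarith)
  have hG0 : Gammaℝ s ≠ 0 := Complex.Gammaℝ_ne_zero_of_re_pos (by rw [hsre]; linarith)
  have hfe : riemannZeta (1 - s) * Gammaℝ (1 - s) = riemannZeta s * Gammaℝ s := by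
    rw [riemannZeta_def_of_ne_zero hs0, riemannZeta_def_of_ne_zero hs1, div_mul_cancel₀ _ hG1, div_mul_cancel₀ _ hG0,
      completedRiemannZeta_one_sub]
  have hfn : ‖riemannZeta (1 - s)‖ * ‖Gammaℝ (1 - s)‖ = ‖riemannZeta s‖ * ‖Gammaℝ s‖ := by
    rw [← norm_mul, ← norm_mul, hfe]
  have hr := Gr_ratio hd0.le hd4 t
  rw [← hs, e3, Gr_conj] at hr
  have hlog : Real.log (1 + |t|) ≤ L + 10 := by
    have h1 : 1 + |t| ≤ 11 * T := by
      have : 1 ≤ T := by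
        have := Real.add_one_le_exp (4 : ℝ)
        linarith
      linarith
    have h2 : Real.log (1 + |t|) ≤ Real.log (11 * T) := Real.log_le_log (by positivity) h1
    rw [Real.log_mul (by norm_num) hTp.ne'] at h2
    have h3 : Real.log 11 ≤ 11 - 1 := Real.log_le_sub_one_of_pos (by norm_num)
    linarith
  have hexp : Real.exp (d * (Real.log (1 + |t|) + 80)) ≤ Real.exp 24 := by
    apply Real.exp_le_exp.2
    have h1 : d * (Real.log (1 + |t|) + 80) ≤ d * (L + 90) := by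
      apply mul_le_mul_of_nonneg_left _ hd0.le
      linarith
    have h2 : d * L = 1 := by
      rw [hd]
      field_simp
    nlinarith
  rw [e3, riemannZeta_conj, Complex.norm_conj, ← hs]
  have hGp : 0 < ‖Gammaℝ (1 - s)‖ := norm_pos_iff.2 hG1
  refine le_of_mul_le_mul_right ?_ hGp
  rw [hfn]
  calc ‖riemannZeta s‖ * ‖Gammaℝ s‖ ≤ ‖riemannZeta s‖ * (Real.exp (d * (Real.log (1 + |t|) + 80)) * ‖Gammaℝ (1 - s)‖) := by
        gcongr
    _ ≤ ‖riemannZeta s‖ * (Real.exp 24 * ‖Gammaℝ (1 - s)‖) := by gcongr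
    _ = _ := by ring

end H74SZ
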